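import Pool.Agent.H752.PL.Stubs
import Pool.Agent.NPC.Dec
import Pool.Agent.H622R2.CoNP

/-!
# The hard language is in `P`
-/

namespace Pool.Agent.H752.PL

open Pool.Agent.NPC Pool.Agent.H620R2.Gauge Finset H568R2 Pool.Agent.H752.GE Filter

namespace L1

/-- the next action -/
def act (x a : List Bool) : List Bool :=
  if a.length < (x ++ x).length then false :: false :: (x ++ a.map (fun _ => true)) else
    if a.length = (x ++ x).length then false :: true :: a else
      [true, (a.getD (x ++ x).length false)]

theorem poly_act : Poly (fun y : List Bool => act (unpair y).1 (unpair y).2) := by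
  have hx : Poly (fun y : List Bool => (unpair y).1) := Poly.fst poly_unpair
  have ha : Poly (fun y : List Bool => (unpair y).2) := Poly.snd poly_unpair
  have hn : Poly (fun y : List Bool => ((unpair y).1 ++ (unpair y).1).length) :=
    Poly.length (Poly.append hx hx)
  have hm : Poly (fun y : List Bool => (unpair y).2.map (fun _ => true)) :=
    NPC.Poly.map (F := fun _ _ => true) ha (NPC.Poly.const true)
  exact Poly.ite (Poly.decide_lt (Poly.length ha) hn)
    (Poly.cons (NPC.Poly.const false) (Poly.cons (NPC.Poly.const false) (Poly.append hx hm)))
    (Poly.ite (Poly.decide_eq (Poly.length ha) hn)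
      (Poly.cons (NPC.Poly.const false) (Poly.cons (NPC.Poly.const true) ha))
      (Poly.cons (NPC.Poly.const true) (Poly.cons (Poly.getD ha hn (NPC.Poly.const false))
        (NPC.Poly.const []))))

/-- the algorithm -/
noncomputable def alg : Alg where
  D := fun y => act (unpair y).1 (unpair y).2
  poly := H622R2.polyTime_of_poly_list poly_act
  p := 2 * Polynomial.X + 2

/-- the first bits -/
def bts (A : Oracle) (x : List Bool) (k : ℕ) : List Bool :=
  (List.range k).map (fun i => A (false :: (x ++ List.replicate i true)))

theorem length_bts (A : Oracle) (x : List Bool) (k : ℕ) : (bts A x k).length = k := by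
  simp [bts]

theorem bts_succ (A : Oracle) (x : List Bool) (k : ℕ) :
    bts A x (k + 1) = bts A x k ++ [A (false :: (x ++ List.replicate k true))] := by
  simp [bts, List.range_succ]

theorem D_pair (x a : List Bool) : alg.D (pairBits x a) = act x a := by
  change act (unpair (pairBits x a)).1 (unpair (pairBits x a)).2 = _
  rw [unpair_pairBits]

theorem run_eq (A : Oracle) (x : List Bool) : ∀ (n k : ℕ), k ≤ 2 * x.length →
    2 * x.length + 2 ≤ k + n →
    alg.run A x n (bts A x k) = some [A (true :: bts A x (2 * x.length))] := by
  intro n
  induction n with
  | zero => intro k h1 h2; omega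
  | succ n ih =>
    intro k h1 h2
    have hl : (x ++ x).length = 2 * x.length := by rw [List.length_append]; ring
    rw [Alg.run, D_pair]
    unfold act
    rw [length_bts, hl]
    rcases Nat.lt_or_ge k (2 * x.length) with h | h
    · rw [if_pos h]
      have h3 : (bts A x k).map (fun _ => true) = List.replicate k true := by
        rw [List.map_const', length_bts]
      simp only [h3]
      rw [← bts_succ]
      exact ih (k + 1) (by omega) (by omega)
    · have hk : k = 2 * x.length := by omega
      rw [if_neg (by omega), if_pos hk]
      simp only
      obtain ⟨n, rfl⟩ : ∃ m, n = m + 1 := ⟨n - 1, by omega⟩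
      rw [Alg.run, D_pair]
      unfold act
      rw [hl, List.length_append, length_bts, List.length_singleton, if_neg (by omega),
        if_neg (by omega)]
      simp only
      rw [← hk, List.getD_append_right _ _ _ _ (by rw [length_bts]), length_bts, Nat.sub_self]
      rfl

end L1

theorem t_hl : St_hl := by
  intro A
  refine ⟨fun x => [A (true :: L1.bts A x (2 * x.length))], ⟨L1.alg, fun x => ?_⟩, fun x => ?_⟩
  · have h := L1.run_eq A x (L1.alg.p.eval x.length) 0 (Nat.zero_le _) (by
      change _ ≤ 0 + (2 * Polynomial.X + 2 : Polynomial ℕ).eval x.length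
      simp)
    exact h
  · change A (true :: L1.bts A x (2 * x.length)) = true ↔ _
    simp

end Pool.Agent.H752.PL
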